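import Pool.Agent.L0h58.EE.Orc

/-! # Almost all data are good -/

set_option autoImplicit false

namespace Pool.Agent.L0h58.EE

open Pool.Agent.L0h34.OM Pool.Agent.L0h34.RO Function MeasureTheory
open scoped ENNReal

/-- The bound for the number of the correct guesses. -/
noncomputable def gb (n T : ℕ) : ℝ := 2 ^ n / 2 + 2 * √(n * T * 2 ^ n)

/-- The program `u` with the advice `a` guesses many hidden bits. -/
def PB (n : ℕ) (u : Prog) (T : ℕ) (a : List Bool) : Set Oracle :=
  {R | gb n T < ((Finset.univ.filter fun x : List.Vector Bool n =>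
    hb R x.1 = gs (orc R) u (init2 x.1 a) T).card : ℝ)}

theorem measurableSet_PB (n : ℕ) (u : Prog) (T : ℕ) (a : List Bool) :
    MeasurableSet (PB n u T a) := by
  refine measurable_of_local (max T (2 * n + 1)) fun R R' h hR => ?_
  unfold PB at hR ⊢
  simp only [Set.mem_ofPred_eq] at hR ⊢
  have h1 : ∀ x : List.Vector Bool n, hb R' x.1 = hb R x.1 := fun x =>
    hb_local (h.mono (le_max_right _ _)) (by rw [x.2])
  have h2 : ∀ x : List.Vector Bool n, gs (orc R') u (init2 x.1 a) T =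
      gs (orc R) u (init2 x.1 a) T := fun x =>
    gs_congr (orc_local (h.mono (le_max_left _ _))) u _
  simp only [h1, h2]
  exact hR

theorem card_translates (n : ℕ) (u : Prog) (T : ℕ) (a : List Bool) (R : Oracle)
    (s : Finset (Tab n)) (hs : ∀ k ∈ s, xr (Dk k) R ∈ PB n u T a) :
    (s.card : ℝ) ≤ 2 ^ (CT T).card * (2 ^ (2 ^ n) * Real.exp (-(8 * n * T)) *
      ((2 ^ n) ^ (2 ^ n) * Real.exp T)) := by
  classical
  obtain ⟨N, hN⟩ : ∃ N, 2 ^ n = N := ⟨_, rfl⟩
  have hN0 : 0 < N := by rw [← hN]; positivity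
  have hNr : (0 : ℝ) < N := by exact_mod_cast hN0
  have hX : Fintype.card (List.Vector Bool n) = N := by rw [card_vector, Fintype.card_bool, hN]
  have hY : Fintype.card (Fin n → Bool) = N := by
    rw [Fintype.card_fun, Fintype.card_bool, Fintype.card_fin, hN]
  have hNr' : (2 : ℝ) ^ n = N := by rw [← hN]; push_cast; rfl
  set D : ℝ := 2 * √(n * T * N) with hD
  have hD0 : 0 ≤ D := by positivity
  have hD2 : D ^ 2 = 4 * (n * T * N) := by
    rw [hD, mul_pow, Real.sq_sqrt (by positivity)]; ring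
  have key : ∀ v : Finset (List Bool),
      ({k : Tab n | (N : ℝ) / 2 + D < ((Finset.univ.filter fun x : List.Vector Bool n =>
        xor (k x).2 (hb R x.1) = gs (gv v (xr (Dk k) R)) u (init2 x.1 a) T).card : ℝ)}.ncard : ℝ)
      ≤ 2 ^ N * Real.exp (-(8 * n * T)) * ((N : ℝ) ^ N * Real.exp T) := by
    intro v
    have h1 := card_bad (qp_gv (n := n) v R) u (fun x => init2 x.1 a) T (fun x => hb R x.1) hD0
      (by rw [hX]; exact hN0) (by rw [hY]; exact hN0)
    rw [hX, hY] at h1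
    rw [hD2, show 2 * (4 * ((n : ℝ) * T * N)) / N = 8 * n * T by field_simp; ring,
      show (N : ℝ) * T / N = T by field_simp] at h1
    exact h1
  have hsub : (s : Set (Tab n)) ⊆ ⋃ v ∈ (CT T).powerset,
      {k : Tab n | (N : ℝ) / 2 + D < ((Finset.univ.filter fun x : List.Vector Bool n =>
        xor (k x).2 (hb R x.1) = gs (gv v (xr (Dk k) R)) u (init2 x.1 a) T).card : ℝ)} := by
    intro k hk
    have h1 := hs k hk
    unfold PB gb at h1
    simp only [Set.mem_ofPred_eq] at h1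
    rw [hNr'] at h1
    simp only [Set.mem_iUnion]
    refine ⟨vw (xr (Dk k) R) T, Finset.mem_powerset.2 (Finset.filter_subset _ _), ?_⟩
    simp only [Set.mem_ofPred_eq]
    have h2 : ∀ x : List.Vector Bool n, gs (gv (vw (xr (Dk k) R) T) (xr (Dk k) R)) u
        (init2 x.1 a) T = gs (orc (xr (Dk k) R)) u (init2 x.1 a) T := fun x =>
      gs_congr (fun q hq => gv_vw hq) u _
    simp only [h2, ← hb_xr]
    exact h1
  calc (s.card : ℝ) = ((s : Set (Tab n)).ncard : ℝ) := by rw [Set.ncard_coe_finset]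
    _ ≤ ((⋃ v ∈ (CT T).powerset,
      {k : Tab n | (N : ℝ) / 2 + D < ((Finset.univ.filter fun x : List.Vector Bool n =>
        xor (k x).2 (hb R x.1) = gs (gv v (xr (Dk k) R)) u (init2 x.1 a) T).card : ℝ)}).ncard : ℝ) := by
        exact_mod_cast Set.ncard_le_ncard hsub (Set.toFinite _)
    _ ≤ ∑ v ∈ (CT T).powerset, ({k : Tab n | (N : ℝ) / 2 + D <
        ((Finset.univ.filter fun x : List.Vector Bool n =>
        xor (k x).2 (hb R x.1) = gs (gv v (xr (Dk k) R)) u (init2 x.1 a) T).card : ℝ)}.ncard : ℝ) := by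
        exact_mod_cast Finset.set_ncard_biUnion_le _ _
    _ ≤ ∑ _v ∈ (CT T).powerset, 2 ^ N * Real.exp (-(8 * n * T)) * ((N : ℝ) ^ N * Real.exp T) :=
        Finset.sum_le_sum fun v _ => key v
    _ = _ := by
        rw [Finset.sum_const, Finset.card_powerset, nsmul_eq_mul, hNr', hN]
        push_cast
        rfl

theorem measure_PB (n : ℕ) (u : Prog) (T : ℕ) (a : List Bool) :
    randomOracle (PB n u T a) ≤
      ENNReal.ofReal (2 ^ (CT T).card * Real.exp (T - 8 * n * T)) := by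
  classical
  obtain ⟨N, hN⟩ : ∃ N, 2 ^ n = N := ⟨_, rfl⟩
  have hN0 : 0 < N := by rw [← hN]; positivity
  have hNr : (0 : ℝ) < N := by exact_mod_cast hN0
  have hNr' : (2 : ℝ) ^ n = N := by rw [← hN]; push_cast; rfl
  set B : ℝ := 2 ^ (CT T).card * (2 ^ (2 ^ n) * Real.exp (-(8 * n * T)) *
      ((2 ^ n) ^ (2 ^ n) * Real.exp T)) with hB
  have h1 := measure_le_of_translates (K := Tab n) (fun k => Dk k) (measurableSet_PB n u T a)
    ⌊B⌋₊ (fun R s hs => Nat.le_floor (card_translates n u T a R s hs))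
  have hK : Fintype.card (Tab n) = (N * 2) ^ N := by
    rw [Fintype.card_fun, Fintype.card_prod, Fintype.card_fun, Fintype.card_bool,
      Fintype.card_fin, card_vector, Fintype.card_bool, hN]
  rw [hK] at h1
  have hB0 : 0 ≤ B := by rw [hB]; positivity
  have h2 : ((⌊B⌋₊ : ℕ) : ℝ≥0∞) ≤ ENNReal.ofReal B := by
    rw [← ENNReal.ofReal_natCast]
    exact ENNReal.ofReal_le_ofReal (Nat.floor_le hB0)
  have h3 : B = (((N * 2) ^ N : ℕ) : ℝ) * (2 ^ (CT T).card * Real.exp (T - 8 * n * T)) := by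
    rw [hB, hN, hNr']
    push_cast
    rw [sub_eq_add_neg, Real.exp_add, mul_pow]
    ring
  have h4 : ((((N * 2) ^ N : ℕ)) : ℝ≥0∞) * randomOracle (PB n u T a) ≤
      (((N * 2) ^ N : ℕ) : ℝ≥0∞) *
        ENNReal.ofReal (2 ^ (CT T).card * Real.exp (T - 8 * n * T)) := by
    refine (h1.trans h2).trans (le_of_eq ?_)
    rw [h3, ENNReal.ofReal_mul (by positivity), ENNReal.ofReal_natCast]
  have h0 : (((N * 2) ^ N : ℕ) : ℝ≥0∞) ≠ 0 := by
    have : (N * 2) ^ N ≠ 0 := by positivity
    exact_mod_cast this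
  exact (ENNReal.mul_le_mul_iff_right h0 (ENNReal.natCast_ne_top _)).1 h4

theorem two_pow_le_exp (m : ℕ) : (2 : ℝ) ^ m ≤ Real.exp m := by
  have h1 : (2 : ℝ) ≤ Real.exp 1 := by
    have := Real.add_one_le_exp 1
    linarith
  calc (2 : ℝ) ^ m ≤ (Real.exp 1) ^ m := by gcongr
    _ = Real.exp m := by rw [← Real.exp_nat_mul, mul_one]

theorem term_bound {n T : ℕ} (hn : 2 ≤ n) (hT : 1 ≤ T) (hT2 : T ≤ 2 ^ n) :
    (2 : ℝ) ^ (T + 1) * (2 ^ (CT T).card * Real.exp (T - 8 * n * T)) ≤ Real.exp (7 - 4 * n) := by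
  have h1 := card_CT (T := T) (by omega)
  have h2 : Nat.log 2 T ≤ n := by
    calc Nat.log 2 T ≤ Nat.log 2 (2 ^ n) := Nat.log_mono_right hT2
      _ = n := Nat.log_pow (by norm_num) _
  have h3 : (CT T).card ≤ 4 * (n + 1) * T :=
    h1.trans (Nat.mul_le_mul_right _ (Nat.mul_le_mul_left _ (by omega)))
  have h4 : (2 : ℝ) ^ (CT T).card ≤ Real.exp (4 * (n + 1) * T) := by
    calc (2 : ℝ) ^ (CT T).card ≤ 2 ^ (4 * (n + 1) * T) :=
          pow_le_pow_right₀ (by norm_num) h3
      _ ≤ _ := by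
          have := two_pow_le_exp (4 * (n + 1) * T)
          push_cast at this
          exact this
  have h5 : (2 : ℝ) ^ (T + 1) ≤ Real.exp (T + 1) := by
    have := two_pow_le_exp (T + 1)
    push_cast at this
    exact this
  calc _ ≤ Real.exp (T + 1) * (Real.exp (4 * (n + 1) * T) * Real.exp (T - 8 * n * T)) := by
        gcongr
    _ = Real.exp (T + 1 + (4 * (n + 1) * T + (T - 8 * n * T))) := by
        rw [← Real.exp_add, ← Real.exp_add]
    _ ≤ _ := by
        refine Real.exp_le_exp.2 ?_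
        have hn' : (2 : ℝ) ≤ n := by exact_mod_cast hn
        have hT' : (1 : ℝ) ≤ T := by exact_mod_cast hT
        nlinarith

/-- Some program with a small number guesses many hidden bits of the strings of length `n`. -/
def BN (n : ℕ) : Set Oracle :=
  ⋃ j ∈ Finset.range (n + 1), ⋃ T ∈ Finset.Icc 1 (2 ^ n), ⋃ a ∈ strsLe T, PB n (en j) T a

theorem measure_BN {n : ℕ} (hn : 2 ≤ n) :
    randomOracle (BN n) ≤ ENNReal.ofReal (Real.exp (7 - 2 * n)) := by
  have h1 : ∀ j, ∀ T ∈ Finset.Icc 1 (2 ^ n), randomOracle (⋃ a ∈ strsLe T, PB n (en j) T a) ≤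
      ENNReal.ofReal (Real.exp (7 - 4 * n)) := by
    intro j T hT
    rw [Finset.mem_Icc] at hT
    refine (measure_biUnion_finset_le _ _).trans ?_
    refine (Finset.sum_le_sum fun a _ => measure_PB n (en j) T a).trans ?_
    rw [Finset.sum_const, nsmul_eq_mul]
    have h2 : ((strsLe T).card : ℝ≥0∞) ≤ ENNReal.ofReal (2 ^ (T + 1)) := by
      rw [← ENNReal.ofReal_natCast]
      refine ENNReal.ofReal_le_ofReal ?_
      exact_mod_cast card_strsLe T
    calc _ ≤ ENNReal.ofReal (2 ^ (T + 1)) *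
          ENNReal.ofReal (2 ^ (CT T).card * Real.exp (T - 8 * n * T)) := by gcongr
      _ = ENNReal.ofReal (2 ^ (T + 1) * (2 ^ (CT T).card * Real.exp (T - 8 * n * T))) := by
          rw [ENNReal.ofReal_mul (p := 2 ^ (T + 1)) (by positivity)]
      _ ≤ _ := ENNReal.ofReal_le_ofReal (term_bound hn hT.1 hT.2)
  have h2 : ∀ j, randomOracle (⋃ T ∈ Finset.Icc 1 (2 ^ n), ⋃ a ∈ strsLe T, PB n (en j) T a) ≤
      ENNReal.ofReal (Real.exp (7 - 3 * n)) := by
    intro j
    refine (measure_biUnion_finset_le _ _).trans ?_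
    refine (Finset.sum_le_sum fun T hT => h1 j T hT).trans ?_
    rw [Finset.sum_const, nsmul_eq_mul, Nat.card_Icc, Nat.add_sub_cancel,
      ← ENNReal.ofReal_natCast, ← ENNReal.ofReal_mul (by positivity)]
    refine ENNReal.ofReal_le_ofReal ?_
    push_cast
    calc (2 : ℝ) ^ n * Real.exp (7 - 4 * n) ≤ Real.exp n * Real.exp (7 - 4 * n) := by
          have := two_pow_le_exp n
          gcongr
      _ = _ := by rw [← Real.exp_add]; congr 1; ring
  unfold BN
  refine (measure_biUnion_finset_le _ _).trans ?_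
  refine (Finset.sum_le_sum fun j _ => h2 j).trans ?_
  rw [Finset.sum_const, nsmul_eq_mul, Finset.card_range,
    ← ENNReal.ofReal_natCast, ← ENNReal.ofReal_mul (by positivity)]
  refine ENNReal.ofReal_le_ofReal ?_
  push_cast
  calc ((n : ℝ) + 1) * Real.exp (7 - 3 * n) ≤ Real.exp n * Real.exp (7 - 3 * n) := by
        have := Real.add_one_le_exp (n : ℝ)
        gcongr
    _ = _ := by rw [← Real.exp_add]; congr 1; ring

theorem exists_good : ∃ R : Oracle, ∃ n₀, ∀ n ≥ n₀, R ∉ BN n := by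
  have h1 : ∑' i, randomOracle {R | R ∈ BN (i + 2)} ≠ ∞ := by
    have h2 : Summable fun i : ℕ => Real.exp (3 + i * (-2)) := by
      simp only [Real.exp_add]
      exact (Real.summable_exp_nat_mul_iff.2 (by norm_num)).mul_left _
    refine ne_top_of_le_ne_top h2.tsum_ofReal_ne_top (ENNReal.tsum_le_tsum fun i => ?_)
    refine (measure_BN (by omega)).trans (ENNReal.ofReal_le_ofReal (Real.exp_le_exp.2 ?_))
    push_cast
    linarith
  have h3 := measure_setOfPred_frequently_eq_zero h1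
  have h4 : ∃ R : Oracle, ¬ ∃ᶠ i in Filter.atTop, R ∈ BN (i + 2) := by
    by_contra hcon
    push Not at hcon
    have : {R : Oracle | ∃ᶠ i in Filter.atTop, R ∈ BN (i + 2)} = Set.univ :=
      Set.eq_univ_of_forall hcon
    rw [this, measure_univ] at h3
    exact one_ne_zero h3
  obtain ⟨R, hR⟩ := h4
  rw [Filter.not_frequently, Filter.eventually_atTop] at hR
  obtain ⟨n₀, h5⟩ := hR
  refine ⟨R, n₀ + 2, fun n hn => ?_⟩
  have := h5 (n - 2) (by omega)
  rwa [show n - 2 + 2 = n by omega] at this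

end Pool.Agent.L0h58.EE
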