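import Pool.Agent.L0h34.OM.Basic

/-!
# Counting tables that are guessed by a program with few steps

A table `k` assigns to each `x` a hidden string `(k x).1` and a hidden bit `(k x).2`. A program has
access to the table only through questions of the form `k x = z`.
-/

set_option autoImplicit false

namespace Pool.Agent.L0h58.EE

open Pool.Agent.L0h34.OM Function

variable {X Y : Type} [Fintype X] [DecidableEq X] [Fintype Y] [DecidableEq Y]

/-- The relative size of the set `F` of tables in each box, if `d` questions are allowed. -/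
def Bdd (d : ℕ) (F : Set (X → Y × Bool)) : Prop :=
  ∀ (U : Finset X) (S : X → Finset (Y × Bool)), (∀ x, x ∉ U → (S x).card ≤ 1) →
    {k : X → Y × Bool | (∀ x, k x ∈ S x) ∧ k ∈ F}.ncard * Fintype.card Y ^ d ≤
      Fintype.card Y ^ U.card * (Fintype.card Y + 1) ^ d

theorem Bdd.subset {d : ℕ} {F F' : Set (X → Y × Bool)} (h : Bdd d F) (hF : F' ⊆ F) : Bdd d F' := by
  intro U S hS
  refine le_trans (Nat.mul_le_mul_right _ (Set.ncard_le_ncard ?_ (Set.toFinite _))) (h U S hS)
  exact fun k hk => ⟨hk.1, hF hk.2⟩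

theorem Bdd.succ {d : ℕ} {F : Set (X → Y × Bool)} (h : Bdd d F) : Bdd (d + 1) F := by
  intro U S hS
  have h1 := h U S hS
  rw [pow_succ, pow_succ, ← mul_assoc, ← mul_assoc]
  exact Nat.mul_le_mul h1 (Nat.le_succ _)

theorem Bdd.mono {d d' : ℕ} {F : Set (X → Y × Bool)} (h : Bdd d F) (hd : d ≤ d') : Bdd d' F := by
  induction d', hd using Nat.le_induction with
  | base => exact h
  | succ n _ ih => exact ih.succ

/-- One question. -/
theorem Bdd.query {d : ℕ} {F : Bool → Set (X → Y × Bool)} (h : ∀ b, Bdd d (F b)) (x : X)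
    (z : Y × Bool) : Bdd (d + 1) {k | k ∈ F (decide (k x = z))} := by
  classical
  intro U S hS
  set N := Fintype.card Y with hN
  by_cases hx : x ∈ U
  · -- two cases
    have h1 := h true (U.erase x) (fun x' => if x' = x then {z} else S x') (by
      intro x' hx'
      by_cases hxx : x' = x
      · simp [hxx]
      · simp only [hxx, if_false]
        exact hS x' fun h => hx' (Finset.mem_erase.2 ⟨hxx, h⟩))
    have h2 := h false U S hS
    have hsub : {k : X → Y × Bool | (∀ x, k x ∈ S x) ∧ k ∈ {k | k ∈ F (decide (k x = z))}} ⊆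
        {k | (∀ x', k x' ∈ (fun x' => if x' = x then {z} else S x') x') ∧ k ∈ F true} ∪
        {k | (∀ x, k x ∈ S x) ∧ k ∈ F false} := by
      rintro k ⟨hk1, hk2⟩
      simp only [Set.mem_ofPred_eq] at hk2
      by_cases hkz : k x = z
      · left
        refine ⟨fun x' => ?_, by simpa [hkz] using hk2⟩
        by_cases hxx : x' = x
        · subst hxx; simp [hkz]
        · simpa [hxx] using hk1 x'
      · right
        exact ⟨hk1, by simpa [hkz] using hk2⟩
    have h3 := (Set.ncard_le_ncard hsub (Set.toFinite _)).trans (Set.ncard_union_le _ _)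
    have hc : (U.erase x).card + 1 = U.card := Finset.card_erase_add_one hx
    set A := {k : X → Y × Bool | (∀ x', k x' ∈ (fun x' => if x' = x then {z} else S x') x') ∧
      k ∈ F true}.ncard
    set B := {k : X → Y × Bool | (∀ x, k x ∈ S x) ∧ k ∈ F false}.ncard
    calc _ ≤ (A + B) * N ^ (d + 1) := Nat.mul_le_mul_right _ h3
      _ = (A * N ^ d) * N + (B * N ^ d) * N := by ring
      _ ≤ (N ^ (U.erase x).card * (N + 1) ^ d) * N + (N ^ U.card * (N + 1) ^ d) * N :=
        Nat.add_le_add (Nat.mul_le_mul_right _ h1) (Nat.mul_le_mul_right _ h2)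
      _ = N ^ U.card * (N + 1) ^ (d + 1) := by rw [← hc]; ring
  · have h4 := hS x hx
    by_cases hz : z ∈ S x
    · have h5 : S x = {z} := by
        rw [Finset.eq_singleton_iff_unique_mem]
        exact ⟨hz, fun y hy => Finset.card_le_one.1 h4 y hy z hz⟩
      refine le_trans (Nat.mul_le_mul_right _ (Set.ncard_le_ncard ?_ (Set.toFinite _)))
        ((h true).succ U S hS)
      rintro k ⟨hk1, hk2⟩
      simp only [Set.mem_ofPred_eq] at hk2
      have h6 : k x = z := by have := hk1 x; rwa [h5, Finset.mem_singleton] at this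
      exact ⟨hk1, by simpa [h6] using hk2⟩
    · refine le_trans (Nat.mul_le_mul_right _ (Set.ncard_le_ncard ?_ (Set.toFinite _)))
        ((h false).succ U S hS)
      rintro k ⟨hk1, hk2⟩
      simp only [Set.mem_ofPred_eq] at hk2
      have h6 : k x ≠ z := fun h => hz (h ▸ hk1 x)
      exact ⟨hk1, by simpa [h6] using hk2⟩

/-- No questions: the hidden bits are guessed. -/
theorem Bdd.leaf (g : X → Bool) : Bdd 0 {k : X → Y × Bool | ∀ x, (k x).2 = g x} := by
  classical
  intro U S hS
  set N := Fintype.card Y with hN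
  have h1 : {k : X → Y × Bool | (∀ x, k x ∈ S x) ∧ k ∈ {k : X → Y × Bool | ∀ x, (k x).2 = g x}} =
      (Fintype.piFinset fun x => (S x).filter fun z => z.2 = g x : Finset (X → Y × Bool)) := by
    ext k
    simp only [Set.mem_ofPred_eq, Finset.mem_coe, Fintype.mem_piFinset, Finset.mem_filter]
    exact forall_and.symm
  rw [h1, Set.ncard_coe_finset, Fintype.card_piFinset, pow_zero, pow_zero, mul_one, mul_one]
  calc ∏ x, ((S x).filter fun z => z.2 = g x).card ≤ ∏ x, (if x ∈ U then N else 1) := by
        refine Finset.prod_le_prod' fun x _ => ?_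
        by_cases hx : x ∈ U
        · rw [if_pos hx]
          have h2 : Set.InjOn Prod.fst (((S x).filter fun z => z.2 = g x : Finset (Y × Bool)) :
              Set (Y × Bool)) := by
            intro a ha b hb hab
            simp only [Finset.coe_filter, Set.mem_ofPred_eq] at ha hb
            exact Prod.ext hab (ha.2.trans hb.2.symm)
          have h3 := Finset.card_le_card_of_injOn (t := (Finset.univ : Finset Y)) Prod.fst
            (fun _ _ => Finset.mem_coe.2 (Finset.mem_univ _)) h2
          exact h3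
        · rw [if_neg hx]
          exact (Finset.card_filter_le _ _).trans (hS x hx)
    _ = N ^ U.card := by
        rw [Finset.prod_ite, Finset.prod_const_one, mul_one, Finset.prod_const,
          Finset.filter_mem_eq_inter, Finset.univ_inter]

/-- The oracle depends on the table only through questions of the form `k x = z`. -/
def QP (G : (X → Y × Bool) → Oracle) : Prop :=
  ∀ q, (∃ x z, ∀ k, G k q = decide (k x = z)) ∨ ∃ b, ∀ k, G k q = b

/-- The tables for which `u` stops after `t ≤ T` steps with the store `τ` and the table is in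
`F t τ`, or `u` does not stop after at most `T` steps and the table is in `F0`. -/
def Ev (G : (X → Y × Bool) → Oracle) (u : Prog) (σ : Store) (T : ℕ)
    (F : ℕ → Store → Set (X → Y × Bool)) (F0 : Set (X → Y × Bool)) : Set (X → Y × Bool) :=
  {k | (∃ t s τ, t ≤ T ∧ Run (G k) s u σ t τ ∧ k ∈ F t τ) ∨
    ((∀ t s τ, Run (G k) s u σ t τ → T < t) ∧ k ∈ F0)}

theorem Ev_zero {G : (X → Y × Bool) → Oracle} {u : Prog} {σ : Store}
    {F : ℕ → Store → Set (X → Y × Bool)} {F0 : Set (X → Y × Bool)} : Ev G u σ 0 F F0 ⊆ F0 := by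
  rintro k (⟨t, s, τ, h1, h2, _⟩ | ⟨_, h⟩)
  · have := h2.one_le; omega
  · exact h

/-- A program that makes one step. -/
theorem bdd_single {G : (X → Y × Bool) → Oracle} {u : Prog} {σ τ0 : Store} {w T e : ℕ}
    {F : ℕ → Store → Set (X → Y × Bool)} {F0 : Set (X → Y × Bool)}
    (hu : ∀ k, ∃ s, Run (G k) s u σ w τ0)
    (hF : ∀ t r τ, t + r = T → Bdd (e + r) (F t τ)) (hF0 : Bdd e F0) :
    Bdd (e + T) (Ev G u σ T F F0) := by
  by_cases hw : w ≤ T
  · refine ((hF w (T - w) τ0 (by omega)).mono (by omega)).subset ?_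
    intro k hk
    obtain ⟨s, hs⟩ := hu k
    rcases hk with ⟨t, s', τ, h1, h2, h3⟩ | ⟨h1, _⟩
    · obtain ⟨rfl, rfl⟩ := h2.det hs
      exact h3
    · have := h1 _ _ _ hs; omega
  · refine (hF0.mono (by omega)).subset ?_
    intro k hk
    obtain ⟨s, hs⟩ := hu k
    rcases hk with ⟨t, s', τ, h1, h2, h3⟩ | ⟨_, h1⟩
    · obtain ⟨rfl, rfl⟩ := h2.det hs
      omega
    · exact h1

theorem bdd_Ev {G : (X → Y × Bool) → Oracle} (hG : QP G) (u : Prog) :
    ∀ (T e : ℕ) (σ : Store) (F : ℕ → Store → Set (X → Y × Bool)) (F0 : Set (X → Y × Bool)),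
      (∀ t r τ, t + r = T → Bdd (e + r) (F t τ)) → Bdd e F0 → Bdd (e + T) (Ev G u σ T F F0) := by
  induction u with
  | nop => intro T e σ F F0 hF hF0; exact bdd_single (fun k => ⟨0, .nop σ⟩) hF hF0
  | put r b => intro T e σ F F0 hF hF0; exact bdd_single (fun k => ⟨_, .put r b σ le_rfl⟩) hF hF0
  | copy r q => intro T e σ F F0 hF hF0; exact bdd_single (fun k => ⟨_, .copy r q σ le_rfl⟩) hF hF0
  | ask r q =>
    intro T e σ F F0 hF hF0
    have hrun : ∀ k, Run (G k) ((σ r).length + 1) (.ask r q) σ ((σ r).length + 1)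
        (update σ q [G k (σ r)]) := fun k => .ask r q σ (by omega) (by omega)
    by_cases hw : (σ r).length + 1 ≤ T
    · rcases hG (σ r) with ⟨x, z, hxz⟩ | ⟨b, hb⟩
      · have h1 := Bdd.query (d := e + (T - ((σ r).length + 1)))
          (F := fun b => F ((σ r).length + 1) (update σ q [b]))
          (fun b => hF _ _ _ (by omega)) x z
        refine (h1.mono (by omega)).subset ?_
        intro k hk
        simp only [Set.mem_ofPred_eq]
        rw [← hxz k]
        rcases hk with ⟨t, s', τ, h1, h2, h3⟩ | ⟨h1, _⟩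
        · obtain ⟨rfl, rfl⟩ := h2.det (hrun k)
          exact h3
        · have := h1 _ _ _ (hrun k); omega
      · refine bdd_single (w := (σ r).length + 1) (τ0 := update σ q [b]) (fun k => ?_) hF hF0
        have := hrun k
        rw [hb k] at this
        exact ⟨_, this⟩
    · refine (hF0.mono (by omega)).subset ?_
      intro k hk
      rcases hk with ⟨t, s', τ, h1, h2, h3⟩ | ⟨_, h1⟩
      · obtain ⟨rfl, rfl⟩ := h2.det (hrun k)
        omega
      · exact h1
  | seq u v ihu ihv =>
    intro T e σ F F0 hF hF0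
    have h1 := ihu T e σ (fun t τ => Ev G v τ (T - t) (fun t' ρ => F (t + t') ρ) F0) F0 (by
      intro t r τ htr
      obtain rfl : T - t = r := by omega
      exact ihv (T - t) e τ _ F0 (fun t' r' ρ h => hF _ _ _ (by omega)) hF0) hF0
    refine h1.subset ?_
    rintro k (⟨t, s, ρ, ht, hrun, hk⟩ | ⟨hno, hk⟩)
    · cases hrun with
      | @seq _ _ _ τ _ t1 t2 h1 h2 =>
        exact Or.inl ⟨t1, s, τ, by omega, h1, Or.inl ⟨t2, s, ρ, by omega, h2, hk⟩⟩
    · by_cases h : ∃ t s τ, t ≤ T ∧ Run (G k) s u σ t τ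
      · obtain ⟨t, s, τ, h1, h2⟩ := h
        refine Or.inl ⟨t, s, τ, h1, h2, Or.inr ⟨fun t' s' ρ h3 => ?_, hk⟩⟩
        have := hno (t + t') (max s s') ρ (.seq (h2.mono (le_max_left _ _))
          (h3.mono (le_max_right _ _)))
        omega
      · push Not at h
        refine Or.inr ⟨fun t s τ h1 => ?_, hk⟩
        by_contra h2
        exact h t s τ (by omega) h1
  | take r u v w ihu ihv ihw =>
    intro T e σ F F0 hF hF0
    rcases T with _ | T
    · exact hF0.subset Ev_zero
    rcases hσ : σ r with _ | ⟨_ | _, l⟩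
    · have h1 := ihu T e σ (fun t τ => F (t + 1) τ) F0 (fun t r τ h => hF _ _ _ (by omega)) hF0
      refine (h1.mono (by omega)).subset ?_
      rintro k (⟨t, s, ρ, ht, hrun, hk⟩ | ⟨hno, hk⟩)
      · cases hrun with
        | @take_nil _ _ _ _ _ _ t1 h1 h2 => exact Or.inl ⟨t1, s, ρ, by omega, h2, hk⟩
        | @take_false _ _ _ _ _ _ t1 l h1 h2 => rw [hσ] at h1; cases h1
        | @take_true _ _ _ _ _ _ t1 l h1 h2 => rw [hσ] at h1; cases h1
      · refine Or.inr ⟨fun t s τ h1 => ?_, hk⟩
        have := hno (t + 1) s τ (.take_nil hσ h1)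
        omega
    · have h1 := ihv T e (update σ r l) (fun t τ => F (t + 1) τ) F0
        (fun t r τ h => hF _ _ _ (by omega)) hF0
      refine (h1.mono (by omega)).subset ?_
      rintro k (⟨t, s, ρ, ht, hrun, hk⟩ | ⟨hno, hk⟩)
      · cases hrun with
        | @take_nil _ _ _ _ _ _ t1 h1 h2 => rw [hσ] at h1; cases h1
        | @take_false _ _ _ _ _ _ t1 l' h1 h2 =>
          rw [hσ] at h1; cases h1
          exact Or.inl ⟨t1, s, ρ, by omega, h2, hk⟩
        | @take_true _ _ _ _ _ _ t1 l' h1 h2 => rw [hσ] at h1; cases h1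
      · refine Or.inr ⟨fun t s τ h1 => ?_, hk⟩
        have := hno (t + 1) s τ (.take_false hσ h1)
        omega
    · have h1 := ihw T e (update σ r l) (fun t τ => F (t + 1) τ) F0
        (fun t r τ h => hF _ _ _ (by omega)) hF0
      refine (h1.mono (by omega)).subset ?_
      rintro k (⟨t, s, ρ, ht, hrun, hk⟩ | ⟨hno, hk⟩)
      · cases hrun with
        | @take_nil _ _ _ _ _ _ t1 h1 h2 => rw [hσ] at h1; cases h1
        | @take_false _ _ _ _ _ _ t1 l' h1 h2 => rw [hσ] at h1; cases h1
        | @take_true _ _ _ _ _ _ t1 l' h1 h2 =>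
          rw [hσ] at h1; cases h1
          exact Or.inl ⟨t1, s, ρ, by omega, h2, hk⟩
      · refine Or.inr ⟨fun t s τ h1 => ?_, hk⟩
        have := hno (t + 1) s τ (.take_true hσ h1)
        omega
  | loop r u ihu =>
    intro T
    induction T using Nat.strong_induction_on with
    | _ T ihT =>
      intro e σ F F0 hF hF0
      by_cases hσ : σ r = []
      · exact bdd_single (fun k => ⟨0, .loop_nil hσ⟩) hF hF0
      rcases T with _ | T
      · exact hF0.subset Ev_zero
      have h1 := ihu T e σ (fun t τ => Ev G (.loop r u) τ (T - t) (fun t' ρ => F (t + t' + 1) ρ) F0)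
        F0 (by
          intro t r τ htr
          obtain rfl : T - t = r := by omega
          exact ihT (T - t) (by omega) e τ _ F0 (fun t' r' ρ h => hF _ _ _ (by omega)) hF0) hF0
      refine (h1.mono (by omega)).subset ?_
      rintro k (⟨t, s, ρ, ht, hrun, hk⟩ | ⟨hno, hk⟩)
      · cases hrun with
        | loop_nil h1 => exact absurd h1 hσ
        | @loop_cons _ _ _ τ _ t1 t2 h0 h1 h2 =>
          exact Or.inl ⟨t1, s, τ, by omega, h1, Or.inl ⟨t2, s, ρ, by omega, h2, hk⟩⟩
      · by_cases h : ∃ t s τ, t ≤ T ∧ Run (G k) s u σ t τ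
        · obtain ⟨t, s, τ, h1, h2⟩ := h
          refine Or.inl ⟨t, s, τ, h1, h2, Or.inr ⟨fun t' s' ρ h3 => ?_, hk⟩⟩
          have := hno (t + t' + 1) (max s s') ρ (.loop_cons hσ (h2.mono (le_max_left _ _))
            (h3.mono (le_max_right _ _)))
          omega
        · push Not at h
          refine Or.inr ⟨fun t s τ h1 => ?_, hk⟩
          by_contra h2
          exact h t s τ (by omega) h1

open Classical in
/-- The guess of the program `u` in `T` steps: `true` if it stops and register `0` is not empty. -/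
noncomputable def gs (G : Oracle) (u : Prog) (σ : Store) (T : ℕ) : Bool :=
  decide (∃ t s τ, t ≤ T ∧ Run G s u σ t τ ∧ τ 0 ≠ [])

theorem bdd_list {G : (X → Y × Bool) → Oracle} (hG : QP G) (u : Prog) (inp : X → Store) (T : ℕ)
    (E : X → Bool) : ∀ (xs : List X), xs.Nodup → ∀ g : X → Bool, Bdd (xs.length * T)
      {k | (∀ x ∈ xs, (k x).2 = xor (gs (G k) u (inp x) T) (E x)) ∧
        ∀ x, x ∉ xs → (k x).2 = g x} := by
  intro xs
  induction xs with
  | nil =>
    intro _ g
    simp only [List.length_nil, Nat.zero_mul]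
    refine (Bdd.leaf g).subset ?_
    rintro k ⟨_, h⟩ x
    exact h x (by simp)
  | cons x xs ih =>
    intro hnd g
    rw [List.nodup_cons] at hnd
    have h1 := bdd_Ev hG u T (xs.length * T) (inp x)
      (fun t τ => {k | (∀ x ∈ xs, (k x).2 = xor (gs (G k) u (inp x) T) (E x)) ∧
        ∀ x', x' ∉ xs → (k x').2 = update g x (xor (decide (τ 0 ≠ [])) (E x)) x'})
      {k | (∀ x ∈ xs, (k x).2 = xor (gs (G k) u (inp x) T) (E x)) ∧
        ∀ x', x' ∉ xs → (k x').2 = update g x (xor false (E x)) x'}
      (fun t r τ h => (ih hnd.2 _).mono (by omega)) (ih hnd.2 _)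
    have h2 : xs.length * T + T = (x :: xs).length * T := by rw [List.length_cons]; ring
    rw [h2] at h1
    refine h1.subset ?_
    rintro k ⟨hk1, hk2⟩
    have hkx := hk1 x (List.mem_cons_self)
    have hrest : ∀ x' ∈ xs, (k x').2 = xor (gs (G k) u (inp x') T) (E x') :=
      fun x' hx' => hk1 x' (List.mem_cons_of_mem _ hx')
    by_cases h : ∃ t s τ, t ≤ T ∧ Run (G k) s u (inp x) t τ
    · obtain ⟨t, s, τ, h3, h4⟩ := h
      refine Or.inl ⟨t, s, τ, h3, h4, hrest, fun x' hx' => ?_⟩
      have hgs : gs (G k) u (inp x) T = decide (τ 0 ≠ []) := by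
        unfold gs
        refine decide_eq_decide.2 ⟨?_, fun h => ⟨t, s, τ, h3, h4, h⟩⟩
        rintro ⟨t', s', τ', _, h5, h6⟩
        rwa [(h5.det h4).2] at h6
      by_cases hxx : x' = x
      · subst hxx
        rw [update_self, hkx, hgs]
      · rw [update_of_ne hxx]
        exact hk2 x' (by simp [hxx, hx'])
    · push Not at h
      refine Or.inr ⟨fun t s τ h3 => ?_, hrest, fun x' hx' => ?_⟩
      · by_contra h4
        exact h t s τ (by omega) h3
      have hgs : gs (G k) u (inp x) T = false := by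
        unfold gs
        rw [decide_eq_false_iff_not]
        rintro ⟨t', s', τ', h5, h6, _⟩
        exact h t' s' τ' h5 h6
      by_cases hxx : x' = x
      · subst hxx
        rw [update_self, hkx, hgs]
      · rw [update_of_ne hxx]
        exact hk2 x' (by simp [hxx, hx'])

/-- The number of the tables for which the guesses have the pattern `E` of errors. -/
theorem card_pattern {G : (X → Y × Bool) → Oracle} (hG : QP G) (u : Prog) (inp : X → Store) (T : ℕ)
    (E : X → Bool) : {k | ∀ x, (k x).2 = xor (gs (G k) u (inp x) T) (E x)}.ncard *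
      Fintype.card Y ^ (Fintype.card X * T) ≤
      Fintype.card Y ^ Fintype.card X * (Fintype.card Y + 1) ^ (Fintype.card X * T) := by
  have h1 := bdd_list hG u inp T E (Finset.univ : Finset X).toList (Finset.nodup_toList _)
    (fun _ => false)
  rw [Finset.length_toList, Finset.card_univ] at h1
  have h2 := h1 Finset.univ (fun _ => Finset.univ) (fun x hx => absurd (Finset.mem_univ x) hx)
  rw [Finset.card_univ] at h2
  refine le_trans (Nat.mul_le_mul_right _ (Set.ncard_le_ncard ?_ (Set.toFinite _))) h2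
  intro k hk
  simp only [Set.mem_ofPred_eq] at hk ⊢
  exact ⟨fun _ => Finset.mem_univ _, fun x _ => hk x, fun x hx => absurd (by simp) hx⟩

end Pool.Agent.L0h58.EE
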