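import Mathlib
import Pool.Agent.L0h58.EE.Count

/-! # The number of the tables for which a program guesses many bits -/

set_option autoImplicit false

namespace Pool.Agent.L0h58.EE

open Pool.Agent.L0h34.OM Function

section

variable {X : Type} [Fintype X] [DecidableEq X]

/-- The number of the places where `E` is `true`. -/
def wt (E : X → Bool) : ℕ := (Finset.univ.filter fun x => E x = true).card

theorem card_small {D : ℝ} (hD : 0 ≤ D) (hX : 0 < Fintype.card X) :
    ((Finset.univ.filter fun E : X → Bool => (wt E : ℝ) < Fintype.card X / 2 - D).card : ℝ) ≤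
      2 ^ Fintype.card X * Real.exp (-(2 * D ^ 2 / Fintype.card X)) := by
  obtain ⟨M, hM⟩ : ∃ M, Fintype.card X = M := ⟨_, rfl⟩
  rw [hM] at hX ⊢
  have hMr : (0 : ℝ) < M := by exact_mod_cast hX
  set l : ℝ := 4 * D / M with hl
  have hl0 : 0 ≤ l := by positivity
  have h1 : ((Finset.univ.filter fun E : X → Bool => (wt E : ℝ) < M / 2 - D).card : ℝ) ≤
      ∑ E : X → Bool, Real.exp (l * (M / 2 - D - wt E)) := by
    rw [Finset.card_eq_sum_ones, Nat.cast_sum]
    calc ∑ E ∈ Finset.univ.filter fun E : X → Bool => (wt E : ℝ) < M / 2 - D, ((1 : ℕ) : ℝ)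
        ≤ ∑ E ∈ Finset.univ.filter fun E : X → Bool => (wt E : ℝ) < M / 2 - D,
          Real.exp (l * (M / 2 - D - wt E)) := by
          refine Finset.sum_le_sum fun E hE => ?_
          rw [Nat.cast_one]
          refine Real.one_le_exp ?_
          have := (Finset.mem_filter.1 hE).2
          exact mul_nonneg hl0 (by linarith)
      _ ≤ _ := Finset.sum_le_sum_of_subset_of_nonneg (Finset.subset_univ _)
          fun _ _ _ => (Real.exp_pos _).le
  have h2 : ∑ E : X → Bool, Real.exp (l * (M / 2 - D - wt E)) =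
      Real.exp (l * (M / 2 - D)) * (1 + Real.exp (-l)) ^ M := by
    have h3 : ∀ E : X → Bool, Real.exp (l * (M / 2 - D - wt E)) =
        Real.exp (l * (M / 2 - D)) * ∏ x, (if E x = true then Real.exp (-l) else 1) := by
      intro E
      rw [Finset.prod_ite, Finset.prod_const_one, mul_one, Finset.prod_const, ← Real.exp_nat_mul,
        ← Real.exp_add]
      congr 1
      unfold wt
      ring
    simp only [h3]
    rw [← Finset.mul_sum]
    congr 1
    have h4 := Finset.prod_univ_sum (fun _ : X => (Finset.univ : Finset Bool))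
      (fun _ b => if b = true then Real.exp (-l) else (1 : ℝ))
    rw [Fintype.piFinset_univ] at h4
    rw [← h4]
    simp only [Fintype.sum_bool, if_true, Bool.false_eq_true, if_false, Finset.prod_const,
      Finset.card_univ, hM]
    rw [add_comm]
  refine h1.trans (h2.le.trans ?_)
  have h5 : 1 + Real.exp (-l) = Real.exp (-(l / 2)) * (2 * Real.cosh (l / 2)) := by
    rw [Real.cosh_eq, mul_div_cancel₀ _ (two_ne_zero), mul_add, ← Real.exp_add, ← Real.exp_add]
    rw [show -(l / 2) + l / 2 = 0 by ring, show -(l / 2) + -(l / 2) = -l by ring, Real.exp_zero]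
  rw [h5, mul_pow, ← Real.exp_nat_mul, ← mul_assoc, ← Real.exp_add]
  have h6 : (2 * Real.cosh (l / 2)) ^ M ≤ 2 ^ M * Real.exp (M * ((l / 2) ^ 2 / 2)) := by
    rw [mul_pow, Real.exp_nat_mul]
    gcongr
    exact Real.cosh_le_exp_half_sq _
  calc Real.exp (l * (M / 2 - D) + M * -(l / 2)) * (2 * Real.cosh (l / 2)) ^ M
      ≤ Real.exp (l * (M / 2 - D) + M * -(l / 2)) * (2 ^ M * Real.exp (M * ((l / 2) ^ 2 / 2))) := by
        gcongr
    _ = 2 ^ M * (Real.exp (l * (M / 2 - D) + M * -(l / 2)) *
        Real.exp (M * ((l / 2) ^ 2 / 2))) := by ring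
    _ = 2 ^ M * Real.exp (-(2 * D ^ 2 / M)) := by
        rw [← Real.exp_add]
        congr 2
        rw [hl]
        field_simp
        ring

end

variable {X Y : Type} [Fintype X] [DecidableEq X] [Fintype Y] [DecidableEq Y]

/-- The number of the tables for which `u` guesses more than `|X| / 2 + D` of the bits
`(k x).2 xor h x` correctly. -/
theorem card_bad {G : (X → Y × Bool) → Oracle} (hG : QP G) (u : Prog) (inp : X → Store) (T : ℕ)
    (h : X → Bool) {D : ℝ} (hD : 0 ≤ D) (hX : 0 < Fintype.card X) (hY : 0 < Fintype.card Y) :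
    ({k : X → Y × Bool | (Fintype.card X : ℝ) / 2 + D <
      ((Finset.univ.filter fun x => xor (k x).2 (h x) = gs (G k) u (inp x) T).card : ℝ)}.ncard : ℝ)
      ≤ 2 ^ Fintype.card X * Real.exp (-(2 * D ^ 2 / Fintype.card X)) *
        (Fintype.card Y ^ Fintype.card X * Real.exp (Fintype.card X * T / Fintype.card Y)) := by
  classical
  obtain ⟨M, hM⟩ : ∃ M, Fintype.card X = M := ⟨_, rfl⟩
  obtain ⟨N, hN⟩ : ∃ N, Fintype.card Y = N := ⟨_, rfl⟩
  have hNr : (0 : ℝ) < N := by rw [← hN]; exact_mod_cast hY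
  set B : ℝ := N ^ M * Real.exp (M * T / N) with hB
  -- each pattern
  have hpat : ∀ E : X → Bool,
      ({k : X → Y × Bool | ∀ x, (k x).2 = xor (gs (G k) u (inp x) T) (E x)}.ncard : ℝ) ≤ B := by
    intro E
    have h1 := card_pattern hG u inp T E
    rw [hM, hN] at h1
    have h2 : ({k : X → Y × Bool | ∀ x, (k x).2 = xor (gs (G k) u (inp x) T) (E x)}.ncard : ℝ) *
        (N : ℝ) ^ (M * T) ≤ (N : ℝ) ^ M * ((N : ℝ) + 1) ^ (M * T) := by exact_mod_cast h1
    have h3 : ((N : ℝ) + 1) ^ (M * T) ≤ Real.exp (M * T / N) * (N : ℝ) ^ (M * T) := by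
      have h4 : (N : ℝ) + 1 ≤ Real.exp (1 / N) * N := by
        have := Real.add_one_le_exp (1 / (N : ℝ))
        calc (N : ℝ) + 1 = (1 / N + 1) * N := by field_simp; ring
          _ ≤ _ := by gcongr
      calc ((N : ℝ) + 1) ^ (M * T) ≤ (Real.exp (1 / N) * N) ^ (M * T) := by gcongr
        _ = _ := by
          rw [mul_pow, ← Real.exp_nat_mul]
          congr 2
          push_cast
          ring
    have h5 : (0 : ℝ) < (N : ℝ) ^ (M * T) := by positivity
    refine le_of_mul_le_mul_right ?_ h5
    calc _ ≤ (N : ℝ) ^ M * ((N : ℝ) + 1) ^ (M * T) := h2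
      _ ≤ (N : ℝ) ^ M * (Real.exp (M * T / N) * (N : ℝ) ^ (M * T)) := by gcongr
      _ = B * (N : ℝ) ^ (M * T) := by rw [hB]; ring
  have hsmall := card_small (X := X) hD hX
  rw [hM, hN]
  rw [hM] at hsmall
  set P := Finset.univ.filter fun E : X → Bool => (wt E : ℝ) < M / 2 - D with hP
  have hsub : {k : X → Y × Bool | (M : ℝ) / 2 + D <
      ((Finset.univ.filter fun x => xor (k x).2 (h x) = gs (G k) u (inp x) T).card : ℝ)} ⊆
      ⋃ E ∈ P, {k : X → Y × Bool | ∀ x, (k x).2 =
        xor (gs (G k) u (inp x) T) (xor (E x) (h x))} := by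
    intro k hk
    simp only [Set.mem_ofPred_eq] at hk
    simp only [Set.mem_iUnion]
    refine ⟨fun x => xor (xor (k x).2 (h x)) (gs (G k) u (inp x) T), ?_, fun x => ?_⟩
    · rw [hP, Finset.mem_filter]
      refine ⟨Finset.mem_univ _, ?_⟩
      have h1 : (Finset.univ.filter fun x => xor (k x).2 (h x) = gs (G k) u (inp x) T).card +
          wt (fun x => xor (xor (k x).2 (h x)) (gs (G k) u (inp x) T)) = M := by
        rw [← hM, ← Finset.card_univ (α := X), wt]
        rw [← Finset.card_filter_add_card_filter_not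
          (fun x => xor (k x).2 (h x) = gs (G k) u (inp x) T) (s := (Finset.univ : Finset X))]
        congr 2
        ext x
        simp only [Finset.mem_filter, Finset.mem_univ, true_and]
        cases xor (k x).2 (h x) <;> cases gs (G k) u (inp x) T <;> simp
      have h2 : ((Finset.univ.filter fun x => xor (k x).2 (h x) =
          gs (G k) u (inp x) T).card : ℝ) +
          wt (fun x => xor (xor (k x).2 (h x)) (gs (G k) u (inp x) T)) = M := by
        exact_mod_cast h1
      linarith
    · simp only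
      cases (k x).2 <;> cases h x <;> cases gs (G k) u (inp x) T <;> rfl
  calc ({k : X → Y × Bool | (M : ℝ) / 2 + D <
      ((Finset.univ.filter fun x => xor (k x).2 (h x) =
        gs (G k) u (inp x) T).card : ℝ)}.ncard : ℝ)
      ≤ ((⋃ E ∈ P, {k : X → Y × Bool | ∀ x, (k x).2 =
        xor (gs (G k) u (inp x) T) (xor (E x) (h x))}).ncard : ℝ) := by
        exact_mod_cast Set.ncard_le_ncard hsub (Set.toFinite _)
    _ ≤ ∑ E ∈ P, ({k : X → Y × Bool | ∀ x, (k x).2 =
        xor (gs (G k) u (inp x) T) (xor (E x) (h x))}.ncard : ℝ) := by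
        exact_mod_cast Finset.set_ncard_biUnion_le P _
    _ ≤ ∑ _E ∈ P, B := Finset.sum_le_sum fun E _ => hpat _
    _ = P.card * B := by rw [Finset.sum_const, nsmul_eq_mul]
    _ ≤ _ := by
        have hB0 : 0 ≤ B := by rw [hB]; positivity
        exact mul_le_mul_of_nonneg_right hsmall hB0

end Pool.Agent.L0h58.EE
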