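import Pool.Agent.L0h34.RO.Verify
import Pool.Agent.L0h58.EE.Chern

/-! # The oracle -/

set_option autoImplicit false

namespace Pool.Agent.L0h58.EE

open Pool.Agent.L0h34.OM Pool.Agent.L0h34.RO Function MeasureTheory

/-! ### The oracle -/

/-- A numbering of the programs. -/
noncomputable def en : ℕ → Prog :=
  haveI : Nonempty Prog := ⟨.nop⟩
  Classical.choose (exists_surjective_nat Prog)

theorem en_surjective : Surjective en :=
  haveI : Nonempty Prog := ⟨.nop⟩
  Classical.choose_spec (exists_surjective_nat Prog)

/-- The string that asks about the program number `j` on the input `x` with space `2 ^ i`. -/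
def code (j i : ℕ) (x : List Bool) : List Bool :=
  true :: (ones j ++ false :: (ones (2 ^ i) ++ false :: x))

theorem length_code (j i : ℕ) (x : List Bool) : (code j i x).length = j + 2 ^ i + x.length + 3 := by
  simp [code]; omega

theorem code_inj {j i j' i' : ℕ} {x x' : List Bool} (h : code j i x = code j' i' x') :
    j = j' ∧ i = i' ∧ x = x' := by
  unfold code at h
  rw [List.cons.injEq] at h
  obtain ⟨h1, h2⟩ := replicate_append_inj h.2
  obtain ⟨h3, h4⟩ := replicate_append_inj h2
  exact ⟨h1, Nat.pow_right_injective le_rfl h3, h4⟩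

/-- The program accepts `x` in space `s`. -/
def AccS (B : Oracle) (s : ℕ) (u : Prog) (x : List Bool) : Prop :=
  ∃ (t : ℕ) (τ : Store), Run B s u (init x) t τ ∧ τ 0 ≠ []

/-- The hidden string of `x` (one bit longer than `x`). -/
def ans (R : Oracle) (x : List Bool) : List Bool := rd R [] x (x.length + 1)

/-- The hidden bit of `x`: the last bit of the hidden string. -/
def hb (R : Oracle) (x : List Bool) : Bool := R (adr [] x.length x)

open Classical in
/-- One step of the definition of the oracle. -/
noncomputable def base (R B : Oracle) : Oracle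
  | [] => false
  | false :: w => decide (∃ x, w = x ++ ans R x)
  | true :: w => decide (∃ j i x, true :: w = code j i x ∧ j ≤ i ∧ x.length ≤ i ∧
      AccS B (2 ^ i) (en j) x)

theorem AccS_congr {B B' : Oracle} {s : ℕ} (h : ∀ q : List Bool, q.length ≤ s → B' q = B q)
    {u : Prog} {x : List Bool} : AccS B' s u x ↔ AccS B s u x :=
  ⟨fun ⟨t, τ, h1, h2⟩ => ⟨t, τ, h1.local_length fun q hq => (h q hq).symm, h2⟩,
    fun ⟨t, τ, h1, h2⟩ => ⟨t, τ, h1.local_length h, h2⟩⟩

theorem base_congr {R R' B B' : Oracle} {q : List Bool}
    (h : ∀ q' : List Bool, q'.length < q.length → B' q' = B q')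
    (hR : ∀ x : List Bool, 2 * x.length + 2 ≤ q.length → ans R' x = ans R x) :
    base R' B' q = base R B q := by
  match q, h, hR with
  | [], _, _ => rfl
  | false :: w, _, hR =>
    refine decide_eq_decide.2 (exists_congr fun x => ?_)
    by_cases hx : 2 * x.length + 2 ≤ (false :: w).length
    · rw [hR x hx]
    · constructor
      · intro hw
        exfalso
        apply hx
        rw [hw]
        simp only [List.length_cons, List.length_append, ans, length_rd]
        omega
      · intro hw
        exfalso
        apply hx
        rw [hw]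
        simp only [List.length_cons, List.length_append, ans, length_rd]
        omega
  | true :: w, h, _ =>
    refine decide_eq_decide.2 (exists_congr fun j => exists_congr fun i => exists_congr fun x =>
      and_congr_right fun hw => and_congr_right fun _ => and_congr_right fun _ => ?_)
    refine AccS_congr fun q' hq' => h q' ?_
    rw [hw, length_code]
    omega

/-- The oracle for the data `R`. -/
noncomputable def orc (R : Oracle) (q : List Bool) : Bool :=
  base R (fun q' => if _h : q'.length < q.length then orc R q' else false) q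
termination_by q.length

theorem orc_eq (R : Oracle) (q : List Bool) : orc R q = base R (orc R) q := by
  rw [orc]
  refine base_congr (fun q' hq' => ?_) fun _ _ => rfl
  simp [hq']

theorem orc_false (R : Oracle) (w : List Bool) :
    orc R (false :: w) = true ↔ ∃ x, w = x ++ ans R x := by
  rw [orc_eq]; simp [base]

theorem orc_code (R : Oracle) {j i : ℕ} {x : List Bool} (hj : j ≤ i) (hx : x.length ≤ i) :
    orc R (code j i x) = true ↔ AccS (orc R) (2 ^ i) (en j) x := by
  rw [orc_eq, code]
  simp only [base, decide_eq_true_eq]
  constructor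
  · rintro ⟨j', i', x', h1, _, _, h2⟩
    obtain ⟨rfl, rfl, rfl⟩ := code_inj (j := j) (i := i) (x := x) h1
    exact h2
  · intro h
    exact ⟨j, i, x, rfl, hj, hx, h⟩

theorem length_ans (R : Oracle) (x : List Bool) : (ans R x).length = x.length + 1 := length_rd _ _ _ _

theorem ans_eq (R : Oracle) (x : List Bool) : ans R x = rd R [] x x.length ++ [hb R x] := by
  unfold ans rd hb
  rw [List.range_succ, List.map_append]
  rfl

/-! ### Locality -/

theorem ans_local {n : ℕ} {R R' : Oracle} (h : Agree n R R') {x : List Bool}
    (hx : 2 * x.length + 1 ≤ n) : ans R' x = ans R x := by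
  refine rd_congr fun t ht => h _ ?_
  rw [length_adr, List.length_nil]
  omega

theorem hb_local {n : ℕ} {R R' : Oracle} (h : Agree n R R') {x : List Bool}
    (hx : 2 * x.length + 1 ≤ n) : hb R' x = hb R x := by
  refine h _ ?_
  rw [length_adr, List.length_nil]
  omega

theorem orc_local {n : ℕ} {R R' : Oracle} (h : Agree n R R') : Agree n (orc R) (orc R') := by
  intro q hq
  obtain ⟨m, hm⟩ : ∃ m, q.length = m := ⟨_, rfl⟩
  induction m using Nat.strong_induction_on generalizing q with
  | _ m ih =>
    rw [orc_eq, orc_eq]
    exact base_congr (fun q' hq' => ih q'.length (by omega) q' (by omega) rfl)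
      fun x hx => ans_local h (by omega)

/-! ### The potential codes -/

/-- The codes of length at most `T`. -/
def CT (T : ℕ) : Finset (List Bool) :=
  (Finset.range (Nat.log 2 T + 1)).biUnion fun i =>
    ((Finset.range (i + 1)) ×ˢ strsLe i).image fun p => code p.1 i p.2

theorem mem_CT {T j i : ℕ} {x : List Bool} (hj : j ≤ i) (hx : x.length ≤ i)
    (h : (code j i x).length ≤ T) : code j i x ∈ CT T := by
  rw [length_code] at h
  have h1 : i < Nat.log 2 T + 1 := by
    have : i ≤ Nat.log 2 T := by
      refine Nat.le_log_of_pow_le (by omega) (by omega)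
    omega
  refine Finset.mem_biUnion.2 ⟨i, Finset.mem_range.2 h1, Finset.mem_image.2 ⟨(j, x),
    Finset.mem_product.2 ⟨Finset.mem_range.2 (by simp only; omega), mem_strsLe hx⟩, rfl⟩⟩

theorem card_CT {T : ℕ} (hT : T ≠ 0) : (CT T).card ≤ 4 * (Nat.log 2 T + 1) * T := by
  obtain ⟨l, hl⟩ : ∃ l, Nat.log 2 T = l := ⟨_, rfl⟩
  have h0 : 2 ^ l ≤ T := by rw [← hl]; exact Nat.pow_log_le_self 2 hT
  unfold CT
  rw [hl]
  have h1 : ∀ i ∈ Finset.range (l + 1),
      (((Finset.range (i + 1)) ×ˢ strsLe i).image fun p => code p.1 i p.2).card ≤
      (l + 1) * 2 ^ (i + 1) := by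
    intro i hi
    rw [Finset.mem_range] at hi
    refine Finset.card_image_le.trans ?_
    rw [Finset.card_product, Finset.card_range]
    exact Nat.mul_le_mul (by omega) (card_strsLe i)
  refine Finset.card_biUnion_le.trans ((Finset.sum_le_sum h1).trans ?_)
  rw [← Finset.mul_sum]
  have h2 : ∀ k : ℕ, ∑ i ∈ Finset.range k, 2 ^ (i + 1) + 2 = 2 ^ (k + 1) := by
    intro k
    induction k with
    | zero => rfl
    | succ k ih => rw [Finset.sum_range_succ, pow_succ 2 (k + 1), ← ih]; ring
  have h3 := h2 (l + 1)
  have h4 : ∑ i ∈ Finset.range (l + 1), 2 ^ (i + 1) ≤ 4 * T := by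
    rw [pow_succ, pow_succ] at h3
    omega
  calc (l + 1) * ∑ i ∈ Finset.range (l + 1), 2 ^ (i + 1) ≤ (l + 1) * (4 * T) :=
        Nat.mul_le_mul_left _ h4
    _ = 4 * (l + 1) * T := by ring

open Classical in
/-- The oracle, if the answers for the codes are given by the set `v`. -/
noncomputable def gv (v : Finset (List Bool)) (R : Oracle) : Oracle
  | [] => false
  | false :: w => decide (∃ x, w = x ++ ans R x)
  | true :: w => decide (true :: w ∈ v)

/-- The codes with the answer `true`. -/
noncomputable def vw (R : Oracle) (T : ℕ) : Finset (List Bool) :=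
  (CT T).filter fun q => orc R q = true

theorem gv_vw {R : Oracle} {T : ℕ} {q : List Bool} (hq : q.length ≤ T) :
    gv (vw R T) R q = orc R q := by
  match q, hq with
  | [], _ => rw [orc_eq]; rfl
  | false :: w, _ => rw [orc_eq]; rfl
  | true :: w, hq =>
    rw [Bool.eq_iff_iff]
    simp only [gv, decide_eq_true_eq, vw, Finset.mem_filter]
    constructor
    · exact fun h => h.2
    · intro h
      refine ⟨?_, h⟩
      rw [orc_eq] at h
      simp only [base, decide_eq_true_eq] at h
      obtain ⟨j, i, x, h1, h2, h3, _⟩ := h
      rw [h1] at hq ⊢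
      exact mem_CT h2 h3 hq

theorem gs_congr {G G' : Oracle} {T : ℕ} (h : ∀ q : List Bool, q.length ≤ T → G' q = G q)
    (u : Prog) (σ : Store) : gs G' u σ T = gs G u σ T := by
  unfold gs
  refine decide_eq_decide.2 ⟨?_, ?_⟩
  · rintro ⟨t, s, τ, h1, h2, h3⟩
    exact ⟨t, s, τ, h1, run_local_time h2 h1 fun q hq => (h q hq).symm, h3⟩
  · rintro ⟨t, s, τ, h1, h2, h3⟩
    exact ⟨t, s, τ, h1, run_local_time h2 h1 h, h3⟩

/-! ### Translations -/

/-- The tables: the hidden strings for the strings of length `n`. -/
abbrev Tab (n : ℕ) : Type := List.Vector Bool n → (Fin n → Bool) × Bool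

/-- The addresses where the data are changed. -/
def Dk {n : ℕ} (k : Tab n) : Oracle := fun q =>
  if h : (unary q).2.length = n then
    if hj : (unary q).1 < n then (k ⟨(unary q).2, h⟩).1 ⟨(unary q).1, hj⟩
    else if (unary q).1 = n then (k ⟨(unary q).2, h⟩).2 else false
  else false

theorem unary_adr (j : ℕ) (x : List Bool) : unary (adr [] j x) = (j, x) := by
  unfold adr
  rw [List.nil_append]
  exact unary_replicate j x

theorem Dk_lt {n : ℕ} (k : Tab n) (x : List.Vector Bool n) {j : ℕ} (hj : j < n) :
    Dk k (adr [] j x.1) = (k x).1 ⟨j, hj⟩ := by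
  unfold Dk
  simp only [unary_adr]
  rw [dif_pos x.2, dif_pos hj]
  rfl

theorem Dk_eq {n : ℕ} (k : Tab n) (x : List.Vector Bool n) :
    Dk k (adr [] n x.1) = (k x).2 := by
  unfold Dk
  simp only [unary_adr]
  rw [dif_pos x.2, dif_neg (lt_irrefl n), if_pos trivial]
  rfl

theorem Dk_ne {n : ℕ} (k : Tab n) {x : List Bool} (hx : x.length ≠ n) (j : ℕ) :
    Dk k (adr [] j x) = false := by
  unfold Dk
  simp only [unary_adr]
  rw [dif_neg hx]

theorem ans_xr_ne {n : ℕ} (k : Tab n) (R : Oracle) {x : List Bool} (hx : x.length ≠ n) :
    ans (xr (Dk k) R) x = ans R x := by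
  refine rd_congr fun t _ => ?_
  rw [xr, Dk_ne k hx, Bool.false_xor]

theorem hb_xr {n : ℕ} (k : Tab n) (R : Oracle) (x : List.Vector Bool n) :
    hb (xr (Dk k) R) x.1 = xor (k x).2 (hb R x.1) := by
  unfold hb
  rw [x.2, xr, Dk_eq]

/-- The entry of the table for which the hidden string becomes `z`. -/
def tg {n : ℕ} (R : Oracle) (x z : List Bool) : (Fin n → Bool) × Bool :=
  (fun j => xor (z.getD j false) (R (adr [] j x)), xor (z.getD n false) (R (adr [] n x)))

theorem ans_xr_eq {n : ℕ} (k : Tab n) (R : Oracle) (x : List.Vector Bool n) {z : List Bool}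
    (hz : z.length = n + 1) : ans (xr (Dk k) R) x.1 = z ↔ k x = tg R x.1 z := by
  have hxl : x.1.length = n := x.2
  have h1 : ans (xr (Dk k) R) x.1 = z ↔
      ∀ j < n + 1, xr (Dk k) R (adr [] j x.1) = z.getD j false := by
    constructor
    · intro h j hj
      rw [← h, ans, rd, List.getD_eq_getElem _ _ (by simp; omega)]
      simp
    · intro h
      refine List.ext_getElem (by rw [length_ans, hxl, hz]) fun j h2 h3 => ?_
      have h4 := h j (by omega)
      rw [List.getD_eq_getElem _ _ h3] at h4
      rw [← h4]
      simp [ans, rd]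
  rw [h1]
  constructor
  · intro h
    refine Prod.ext ?_ ?_
    · funext j
      have h2 := h j.1 (by have := j.2; omega)
      rw [xr, Dk_lt k x j.2] at h2
      simp only [tg]
      rw [← h2, Bool.xor_assoc, Bool.xor_self, Bool.xor_false]
    · have h2 := h n (by omega)
      rw [xr, Dk_eq] at h2
      simp only [tg]
      rw [← h2, Bool.xor_assoc, Bool.xor_self, Bool.xor_false]
  · intro h j hj
    rcases Nat.lt_or_ge j n with h2 | h2
    · rw [xr, Dk_lt k x h2, h]
      simp [tg]
    · obtain rfl : j = n := by omega
      rw [xr, Dk_eq, h]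
      simp [tg]

theorem qp_gv {n : ℕ} (v : Finset (List Bool)) (R : Oracle) :
    QP fun k : Tab n => gv v (xr (Dk k) R) := by
  intro q
  match q with
  | [] => exact Or.inr ⟨false, fun _ => rfl⟩
  | true :: w => exact Or.inr ⟨_, fun _ => rfl⟩
  | false :: w =>
    by_cases hw : w.length = 2 * n + 1
    · left
      refine ⟨⟨w.take n, by rw [List.length_take]; omega⟩, tg R (w.take n) (w.drop n), fun k => ?_⟩
      refine decide_eq_decide.2 ?_
      rw [← ans_xr_eq k R ⟨w.take n, _⟩ (by rw [List.length_drop]; omega)]
      constructor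
      · rintro ⟨x, hx⟩
        have hxl : x.length = n := by
          have := congrArg List.length hx
          rw [List.length_append, length_ans] at this
          omega
        have h1 : w.take n = x := by rw [hx]; exact List.take_left' hxl
        have h2 : w.drop n = ans (xr (Dk k) R) x := by
          conv_lhs => rw [hx]
          exact List.drop_left' hxl
        simp only
        rw [h1, h2]
      · intro h
        simp only at h
        exact ⟨w.take n, by rw [h, List.take_append_drop]⟩
    · right
      classical
      refine ⟨decide (∃ x, w = x ++ ans R x), fun k => ?_⟩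
      refine decide_eq_decide.2 (exists_congr fun x => ?_)
      by_cases hx : x.length = n
      · constructor
        · intro h
          exfalso
          apply hw
          rw [h, List.length_append, length_ans]
          omega
        · intro h
          exfalso
          apply hw
          rw [h, List.length_append, length_ans]
          omega
      · rw [ans_xr_ne k R hx]

end Pool.Agent.L0h58.EE
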