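import Pool.Agent.L0h58.EE.Orc

/-! # The programs -/

set_option autoImplicit false

namespace Pool.Agent.L0h58.EE

open Pool.Agent.L0h34.OM Pool.Agent.L0h34.RO Function

theorem init2_eq8 (x w : List Bool) : init2 x w = st [x, w, [], [], [], [], [], []] := by
  rw [init2_eq]
  exact st_zeros [x, w, [], [], [], [], [], []] 12

theorem init_eq8 (x : List Bool) : init x = st [x, [], [], [], [], [], [], []] := by
  rw [init_eq20]
  exact st_zeros [x, [], [], [], [], [], [], []] 12

section verifier

variable {G : Oracle} {X W S T Q B D : List Bool}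

/-- Read one bit of the witness. -/
def ub : Prog := .take 1 (.put 3 true) (.put 2 false) (.put 2 true)

theorem go_ub (l : List Bool) (j : ℕ) :
    Go G (.each 4 ub ub) (st [X, W, S, ones j, l, Q, B, D]) (4 * l.length + 1)
      (st [X, W.drop l.length, S ++ W.take l.length, ones (j + (l.length - W.length)), [], Q, B, D]) := by
  induction l generalizing S W j with
  | nil =>
    simp only [List.length_nil, List.drop_zero, List.take_zero, List.append_nil, Nat.zero_sub,
      Nat.add_zero, Nat.mul_zero, Nat.zero_add]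
    exact Go.each_nil rfl
  | cons b l ih =>
    rcases W with _ | ⟨e, W⟩
    · have h2 := ih (S := S) (W := []) (j + 1)
      have h0 : Go G (.put 3 true) (st [X, [], S, ones j, l, Q, B, D]) 1
          (st [X, [], S, ones (j + 1), l, Q, B, D]) := by
        rw [← ones_add j 1]
        exact Go.put true (by simp)
      simp only [List.drop_nil, List.take_nil, List.append_nil, List.length_nil,
        Nat.sub_zero, List.length_cons] at h2 ⊢
      rw [show j + 1 + l.length = j + (l.length + 1) by ring] at h2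
      exact (Go.each_cons b (T := 2) (by simp) rfl (Go.take_nil (T := 1) rfl h0) h2).mono (by omega)
    · have h2 := ih (S := S ++ [e]) (W := W) j
      simp only [List.drop_succ_cons, List.take_succ_cons, List.length_cons,
        Nat.add_sub_add_right] at h2 ⊢
      rw [show S ++ e :: List.take l.length W = S ++ [e] ++ List.take l.length W by simp]
      refine (Go.each_cons b (T := 2) (by simp) rfl ?_ h2).mono (by omega)
      rcases e with - | -
      · exact Go.take_false (by simp) rfl (Go.put false (by simp))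
      · exact Go.take_true (by simp) rfl (Go.put true (by simp))

/-- The verifier for the strings with the hidden bit `b`. -/
def verU (b : Bool) : Prog := .seq (.copy 0 4) (.seq (.each 4 ub ub) (.seq (.put 5 false)
  (.seq (.app 0 5 7) (.seq (.app 2 5 7) (.seq (.put 5 b) (.seq (.ask 5 6) (.seq (.clear 0)
  (.take 3 (.take 1 (.take 6 .nop .nop (.put 0 true)) .nop .nop) .nop .nop))))))))

theorem go_verU (b : Bool) (x w : List Bool) : ∃ τ : Store,
    Go G (verU b) (init2 x w) (40 * x.length + 60) τ ∧
    (τ 0 ≠ [] ↔ w.length = x.length ∧ G (false :: (x ++ (w ++ [b]))) = true) := by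
  rw [init2_eq8]
  obtain ⟨q, hq⟩ : ∃ q, false :: (x ++ w.take x.length ++ [b]) = q := ⟨_, rfl⟩
  have hql : q.length ≤ 2 * x.length + 2 := by
    rw [← hq]
    simp only [List.length_cons, List.length_append, List.length_take, List.length_nil]
    omega
  have g1 : Go G (.copy 0 4) (st [x, w, [], [], [], [], [], []]) (x.length + 1)
      (st [x, w, [], [], x, [], [], []]) := Go.copy (by simp)
  have g2 : Go G (.each 4 ub ub) (st [x, w, [], [], x, [], [], []]) (4 * x.length + 1)
      (st [x, w.drop x.length, w.take x.length, ones (x.length - w.length), [], [], [], []]) := by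
    have := go_ub (G := G) (X := x) (W := w) (S := []) (Q := []) (B := []) (D := []) x 0
    rwa [Nat.zero_add, List.nil_append] at this
  obtain ⟨W', hW'⟩ : ∃ W', w.drop x.length = W' := ⟨_, rfl⟩
  obtain ⟨S', hS'⟩ : ∃ S', w.take x.length = S' := ⟨_, rfl⟩
  obtain ⟨m, hm⟩ : ∃ m, x.length - w.length = m := ⟨_, rfl⟩
  rw [hW', hS', hm] at g2
  rw [hS'] at hq
  have hSl : S'.length ≤ x.length := by rw [← hS', List.length_take]; omega
  have g3 : Go G (.put 5 false) (st [x, W', S', ones m, [], [], [], []]) 1
      (st [x, W', S', ones m, [], [false], [], []]) := Go.put false (by simp)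
  have g4 : Go G (.app 0 5 7) (st [x, W', S', ones m, [], [false], [], []]) (4 * x.length + 2)
      (st [x, W', S', ones m, [], [false] ++ x, [], []]) := Go.app (by simp) (by simp) (by simp)
  have g5 : Go G (.app 2 5 7) (st [x, W', S', ones m, [], [false] ++ x, [], []]) (4 * S'.length + 2)
      (st [x, W', S', ones m, [], [false] ++ x ++ S', [], []]) :=
    Go.app (by simp) (by simp) (by simp)
  have g6 : Go G (.put 5 b) (st [x, W', S', ones m, [], [false] ++ x ++ S', [], []]) 1
      (st [x, W', S', ones m, [], [false] ++ x ++ S' ++ [b], [], []]) := Go.put b (by simp)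
  have e1 : [false] ++ x ++ S' ++ [b] = q := by rw [← hq]; simp
  rw [e1] at g6
  have g7 : Go G (.ask 5 6) (st [x, W', S', ones m, [], q, [], []]) (q.length + 1)
      (st [x, W', S', ones m, [], q, [G q], []]) := Go.ask (by simp)
  have g8 : Go G (.clear 0) (st [x, W', S', ones m, [], q, [G q], []]) (3 * x.length + 1)
      (st [[], W', S', ones m, [], q, [G q], []]) := Go.clear (by simp)
  have g9 : ∃ τ, Go G (.take 3 (.take 1 (.take 6 .nop .nop (.put 0 true)) .nop .nop) .nop .nop)
      (st [[], W', S', ones m, [], q, [G q], []]) 4 τ ∧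
      (τ 0 ≠ [] ↔ m = 0 ∧ W' = [] ∧ G q = true) := by
    rcases m with _ | m
    · rcases W' with _ | ⟨e, W'⟩
      · cases hG : G q
        · exact ⟨_, Go.take_nil rfl (Go.take_nil rfl (Go.take_false (by simp) rfl Go.nop)),
            by simp [st]⟩
        · exact ⟨_, Go.take_nil rfl (Go.take_nil rfl (Go.take_true (by simp) rfl
            (Go.put true (by simp)))), by simp [st]⟩
      · rcases e with - | -
        · exact ⟨_, (Go.take_nil rfl (Go.take_false (by simp) rfl Go.nop)).mono (by omega),
            by simp [st]⟩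
        · exact ⟨_, (Go.take_nil rfl (Go.take_true (by simp) rfl Go.nop)).mono (by omega),
            by simp [st]⟩
    · exact ⟨_, (Go.take_true (by simp) rfl Go.nop).mono (by omega), by simp [st]⟩
  obtain ⟨τ, g9, h9⟩ := g9
  refine ⟨τ, (g1.seq (g2.seq (g3.seq (g4.seq (g5.seq (g6.seq (g7.seq (g8.seq g9)))))))).mono
    (by omega), ?_⟩
  rw [h9]
  constructor
  · rintro ⟨h1, h2, h3⟩
    have h4 : w.length = x.length := by
      rw [← hW', List.drop_eq_nil_iff] at h2
      omega
    refine ⟨h4, ?_⟩
    rw [← hS', List.take_of_length_le (by omega)] at hq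
    rw [← h3, ← hq]
    simp
  · rintro ⟨h1, h2⟩
    refine ⟨by omega, by rw [← hW']; exact List.drop_eq_nil_of_le (by omega), ?_⟩
    rw [← hS', List.take_of_length_le (by omega)] at hq
    rw [← h2, ← hq]
    simp

end verifier

section exponential

variable {G : Oracle} {X W P Q E T B D : List Bool}

theorem go_put1 (j : ℕ) :
    Go G (iter (.put 1 true) j) (st [X, W, P, Q, E, T, B, D]) (j + 1)
      (st [X, W ++ ones j, P, Q, E, T, B, D]) := by
  induction j with
  | zero => simp only [ones, List.replicate_zero, List.append_nil]; exact Go.nop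
  | succ j ih =>
    have h1 : Go G (.put 1 true) (st [X, W ++ ones j, P, Q, E, T, B, D]) 1
      (st [X, W ++ ones j ++ ones 1, P, Q, E, T, B, D]) := Go.put true (by simp)
    rw [List.append_assoc, ones_add] at h1
    exact ih.seq h1

/-- Double register `3`, `c` times. -/
theorem go_dbl (c i : ℕ) :
    Go G (iter (.app 3 3 4) c) (st [X, W, P, ones (2 ^ i), [], T, B, D])
      (c * (4 * 2 ^ (i + c) + 2) + 1) (st [X, W, P, ones (2 ^ (i + c)), [], T, B, D]) := by
  induction c with
  | zero => simp only [Nat.zero_mul, Nat.zero_add, Nat.add_zero]; exact Go.nop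
  | succ c ih =>
    have h1 : Go G (.app 3 3 4) (st [X, W, P, ones (2 ^ (i + c)), [], T, B, D])
        (4 * (ones (2 ^ (i + c))).length + 2)
        (st [X, W, P, ones (2 ^ (i + c)) ++ ones (2 ^ (i + c)), [], T, B, D]) :=
      Go.app (by simp) (by simp) (by simp)
    rw [ones_add, ← two_mul, ← pow_succ', List.length_replicate] at h1
    refine (ih.seq h1).mono ?_
    rw [show i + (c + 1) = i + c + 1 by ring, pow_succ]
    nlinarith [Nat.zero_le (2 ^ (i + c)), Nat.zero_le c,
      Nat.mul_le_mul_left c (Nat.zero_le (2 ^ (i + c)))]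

/-- Double register `3`, `c` times for each bit of register `2`. -/
theorem go_dbls (c : ℕ) (l : List Bool) (i : ℕ) :
    Go G (.each 2 (iter (.app 3 3 4) c) (iter (.app 3 3 4) c))
      (st [X, W, l, ones (2 ^ i), [], T, B, D])
      (l.length * (c * (4 * 2 ^ (i + c * l.length) + 2) + 3) + 1)
      (st [X, W, [], ones (2 ^ (i + c * l.length)), [], T, B, D]) := by
  induction l generalizing i with
  | nil =>
    simp only [List.length_nil, Nat.zero_mul, Nat.mul_zero, Nat.add_zero, Nat.zero_add]
    exact Go.each_nil rfl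
  | cons b l ih =>
    have h1 := go_dbl (G := G) (X := X) (W := W) (P := l) (T := T) (B := B) (D := D) c i
    have h2 := ih (i + c)
    have e1 : i + c + c * l.length = i + c * (b :: l).length := by
      simp only [List.length_cons]; ring
    rw [e1] at h2
    refine (Go.each_cons b (by simp) rfl h1 h2).mono ?_
    have h3 : 2 ^ (i + c) ≤ 2 ^ (i + c * (b :: l).length) :=
      Nat.pow_le_pow_right (by norm_num) (by
        simp only [List.length_cons]
        nlinarith [Nat.zero_le (c * l.length)])
    have h4 : c * (4 * 2 ^ (i + c) + 2) ≤ c * (4 * 2 ^ (i + c * (b :: l).length) + 2) :=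
      Nat.mul_le_mul_left _ (by omega)
    obtain ⟨M, hM⟩ : ∃ M, c * (4 * 2 ^ (i + c * (b :: l).length) + 2) = M := ⟨_, rfl⟩
    rw [hM] at h4 ⊢
    have h5 : (b :: l).length * (M + 3) = l.length * (M + 3) + (M + 3) := by
      simp only [List.length_cons]; ring
    rw [h5]
    omega

/-- Ask for the code of the program number `j` with space `2 ^ (c * (n + 1))`. -/
def espP (j c : ℕ) : Prog := .seq (.put 1 true) (.seq (iter (.put 1 true) j) (.seq (.put 1 false)
  (.seq (.put 3 true) (.seq (.copy 0 2) (.seq (.put 2 true)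
  (.seq (.each 2 (iter (.app 3 3 4) c) (iter (.app 3 3 4) c))
  (.seq (.app 3 1 4) (.seq (.put 1 false) (.seq (.app 0 1 4) (.seq (.ask 1 5) (.seq (.clear 0)
  (.take 5 .nop .nop (.put 0 true)))))))))))))

theorem go_espP (j c : ℕ) (x : List Bool) : ∃ τ : Store,
    Go G (espP j c) (init x) (2 ^ ((2 * c + j + 8) * (x.length + 1))) τ ∧
    (τ 0 ≠ [] ↔ G (code j (c * (x.length + 1)) x) = true) := by
  rw [init_eq8]
  obtain ⟨I, hI⟩ : ∃ I, c * (x.length + 1) = I := ⟨_, rfl⟩
  have g1 : Go G (.put 1 true) (st [x, [], [], [], [], [], [], []]) 1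
      (st [x, [true], [], [], [], [], [], []]) := Go.put true (by simp)
  have g2 : Go G (iter (.put 1 true) j) (st [x, [true], [], [], [], [], [], []]) (j + 1)
      (st [x, [true] ++ ones j, [], [], [], [], [], []]) := go_put1 j
  have g3 : Go G (.put 1 false) (st [x, [true] ++ ones j, [], [], [], [], [], []]) 1
      (st [x, [true] ++ ones j ++ [false], [], [], [], [], [], []]) := Go.put false (by simp)
  have g4 : Go G (.put 3 true) (st [x, [true] ++ ones j ++ [false], [], [], [], [], [], []]) 1
      (st [x, [true] ++ ones j ++ [false], [], ones (2 ^ 0), [], [], [], []]) :=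
    Go.put true (by simp)
  have g5 : Go G (.copy 0 2)
      (st [x, [true] ++ ones j ++ [false], [], ones (2 ^ 0), [], [], [], []]) (x.length + 1)
      (st [x, [true] ++ ones j ++ [false], x, ones (2 ^ 0), [], [], [], []]) :=
    Go.copy (by simp)
  have g6 : Go G (.put 2 true)
      (st [x, [true] ++ ones j ++ [false], x, ones (2 ^ 0), [], [], [], []]) 1
      (st [x, [true] ++ ones j ++ [false], x ++ [true], ones (2 ^ 0), [], [], [], []]) :=
    Go.put true (by simp)
  have g7 := go_dbls (G := G) (X := x) (W := [true] ++ ones j ++ [false]) (T := []) (B := [])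
    (D := []) c (x ++ [true]) 0
  have hl : (x ++ [true]).length = x.length + 1 := by simp
  rw [hl, Nat.zero_add, hI] at g7
  have g8 : Go G (.app 3 1 4)
      (st [x, [true] ++ ones j ++ [false], [], ones (2 ^ I), [], [], [], []])
      (4 * (ones (2 ^ I)).length + 2)
      (st [x, [true] ++ ones j ++ [false] ++ ones (2 ^ I), [], ones (2 ^ I), [], [], [], []]) :=
    Go.app (by simp) (by simp) (by simp)
  rw [List.length_replicate] at g8
  have g9 : Go G (.put 1 false)
      (st [x, [true] ++ ones j ++ [false] ++ ones (2 ^ I), [], ones (2 ^ I), [], [], [], []]) 1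
      (st [x, [true] ++ ones j ++ [false] ++ ones (2 ^ I) ++ [false], [], ones (2 ^ I), [], [],
        [], []]) := Go.put false (by simp)
  have g10 : Go G (.app 0 1 4)
      (st [x, [true] ++ ones j ++ [false] ++ ones (2 ^ I) ++ [false], [], ones (2 ^ I), [], [],
        [], []]) (4 * x.length + 2)
      (st [x, [true] ++ ones j ++ [false] ++ ones (2 ^ I) ++ [false] ++ x, [], ones (2 ^ I), [],
        [], [], []]) := Go.app (by simp) (by simp) (by simp)
  obtain ⟨q, hq⟩ : ∃ q, code j I x = q := ⟨_, rfl⟩
  have e1 : [true] ++ ones j ++ [false] ++ ones (2 ^ I) ++ [false] ++ x = q := by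
    rw [← hq, code]; simp
  have hql : q.length = j + 2 ^ I + x.length + 3 := by rw [← hq, length_code]
  rw [e1] at g10
  have g11 : Go G (.ask 1 5) (st [x, q, [], ones (2 ^ I), [], [], [], []]) (q.length + 1)
      (st [x, q, [], ones (2 ^ I), [], [G q], [], []]) := Go.ask (by simp)
  have g12 : Go G (.clear 0) (st [x, q, [], ones (2 ^ I), [], [G q], [], []]) (3 * x.length + 1)
      (st [[], q, [], ones (2 ^ I), [], [G q], [], []]) := Go.clear (by simp)
  have g13 : ∃ τ, Go G (.take 5 .nop .nop (.put 0 true))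
      (st [[], q, [], ones (2 ^ I), [], [G q], [], []]) 2 τ ∧ (τ 0 ≠ [] ↔ G q = true) := by
    cases hG : G q
    · exact ⟨_, Go.take_false (by simp) rfl Go.nop, by simp [st]⟩
    · exact ⟨_, Go.take_true (by simp) rfl (Go.put true (by simp)), by simp [st]⟩
  obtain ⟨τ, g13, h13⟩ := g13
  refine ⟨τ, (g1.seq (g2.seq (g3.seq (g4.seq (g5.seq (g6.seq (g7.seq (g8.seq (g9.seq
    (g10.seq (g11.seq (g12.seq g13)))))))))))).mono ?_, by rw [hI, hq]; exact h13⟩
  -- the time
  clear g1 g2 g3 g4 g5 g6 g7 g8 g9 g10 g11 g12 g13 h13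
  rw [hql]
  obtain ⟨n, hn⟩ : ∃ n, x.length + 1 = n := ⟨_, rfl⟩
  have hxn : x.length = n - 1 := by omega
  have hn1 : 1 ≤ n := by omega
  rw [hn] at hI
  rw [hn]
  have h1 : (2 * c + j + 8) * n = I + I + (j + 8) * n := by rw [← hI]; ring
  rw [h1, pow_add, pow_add]
  have h2 : I < 2 ^ I := Nat.lt_two_pow_self
  have h4 : c * n = I := hI
  obtain ⟨A, hA⟩ : ∃ A, 2 ^ I = A := ⟨_, rfl⟩
  rw [hA] at h2 ⊢
  have h5 : n * (c * (4 * A + 2) + 3) = I * (4 * A + 2) + 3 * n := by rw [← h4]; ring
  rw [h5]
  have h3 : 2 * j + 12 * n + 21 ≤ 2 ^ ((j + 8) * n) := by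
    have h7 : j < 2 ^ j := Nat.lt_two_pow_self
    have h8 : n < 2 ^ n := Nat.lt_two_pow_self
    have h10 : 128 ≤ 2 ^ (7 * n) := by
      calc 128 = 2 ^ 7 := by norm_num
        _ ≤ 2 ^ (7 * n) := Nat.pow_le_pow_right (by norm_num) (by omega)
    have h11 : 2 ^ (j + (n + 7 * n)) ≤ 2 ^ ((j + 8) * n) := by
      refine Nat.pow_le_pow_right (by norm_num) ?_
      have : j * 1 ≤ j * n := Nat.mul_le_mul_left _ hn1
      linarith [show (j + 8) * n = j * n + 8 * n by ring]
    refine le_trans ?_ h11
    rw [pow_add, pow_add]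
    calc 2 * j + 12 * n + 21 ≤ (j + 1) * ((n + 1) * 128) := by nlinarith [Nat.zero_le (j * n)]
      _ ≤ 2 ^ j * (2 ^ n * 2 ^ (7 * n)) := Nat.mul_le_mul h7 (Nat.mul_le_mul h8 h10)
  obtain ⟨C, hC⟩ : ∃ C, 2 ^ ((j + 8) * n) = C := ⟨_, rfl⟩
  rw [hC] at h3 ⊢
  have h6 : A * A * (2 * j + 12 * n + 21) ≤ A * A * C := Nat.mul_le_mul_left _ h3
  refine le_trans ?_ h6
  have h7 : I * A ≤ A * A := Nat.mul_le_mul_right _ h2.le
  have h8 : 1 ≤ A := by omega
  have h9 : A ≤ A * A := Nat.le_mul_self A
  have h12 : (2 * j + 12 * n) * 1 ≤ (2 * j + 12 * n) * (A * A) :=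
    Nat.mul_le_mul_left _ (by omega)
  have h13 : A * A * (2 * j + 12 * n + 21) = (2 * j + 12 * n) * (A * A) + 21 * (A * A) := by ring
  have h14 : I * (4 * A + 2) = 4 * (I * A) + 2 * I := by ring
  rw [h13, h14]
  omega

end exponential

end Pool.Agent.L0h58.EE
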