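import Pool.Agent.L0h58.EE.Progs

/-! # A program with linear overhead -/

set_option autoImplicit false

namespace Pool.Agent.L0h58.EE

open Pool.Agent.L0h34.OM Pool.Agent.L0h34.RO Function

section

variable {G : Oracle} {X W P Q E T B D : List Bool}

/-- Double register `3`, `c` times. -/
theorem go_dblT (c i : ℕ) : ∃ t, t + 4 * 2 ^ i ≤ 4 * 2 ^ (i + c) + (2 * c + 1) ∧
    Go G (iter (.app 3 3 4) c) (st [X, W, P, ones (2 ^ i), [], T, B, D]) t
      (st [X, W, P, ones (2 ^ (i + c)), [], T, B, D]) := by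
  induction c with
  | zero => exact ⟨1, by simp only [Nat.add_zero]; omega, Go.nop⟩
  | succ c ih =>
    obtain ⟨t, ht, ih⟩ := ih
    have h1 : Go G (.app 3 3 4) (st [X, W, P, ones (2 ^ (i + c)), [], T, B, D])
        (4 * (ones (2 ^ (i + c))).length + 2)
        (st [X, W, P, ones (2 ^ (i + c)) ++ ones (2 ^ (i + c)), [], T, B, D]) :=
      Go.app (by simp) (by simp) (by simp)
    rw [ones_add, ← two_mul, ← pow_succ', List.length_replicate] at h1
    refine ⟨_, ?_, ih.seq h1⟩
    rw [show i + (c + 1) = i + c + 1 by ring, pow_succ]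
    omega

/-- Double register `3`, `c` times for each bit of register `2`. -/
theorem go_dblsT (c : ℕ) (l : List Bool) (i : ℕ) :
    ∃ t, t + 4 * 2 ^ i ≤ 4 * 2 ^ (i + c * l.length) + (l.length * (2 * c + 3) + 1) ∧
    Go G (.each 2 (iter (.app 3 3 4) c) (iter (.app 3 3 4) c))
      (st [X, W, l, ones (2 ^ i), [], T, B, D]) t
      (st [X, W, [], ones (2 ^ (i + c * l.length)), [], T, B, D]) := by
  induction l generalizing i with
  | nil =>
    simp only [List.length_nil, Nat.zero_mul, Nat.mul_zero, Nat.add_zero, Nat.zero_add]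
    exact ⟨1, by omega, Go.each_nil rfl⟩
  | cons b l ih =>
    obtain ⟨t1, ht1, h1⟩ := go_dblT (G := G) (X := X) (W := W) (P := l) (T := T) (B := B) (D := D) c i
    obtain ⟨t2, ht2, h2⟩ := ih (i + c)
    have e1 : i + c + c * l.length = i + c * (b :: l).length := by
      simp only [List.length_cons]; ring
    rw [e1] at h2 ht2
    refine ⟨_, ?_, Go.each_cons b (by simp) rfl h1 h2⟩
    have h5 : (b :: l).length * (2 * c + 3) = l.length * (2 * c + 3) + (2 * c + 3) := by
      simp only [List.length_cons]; ring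
    rw [h5]
    omega

/-- Ask for the code of the program number `j` with space `2 ^ (k + c * n)`. -/
def espT (j k c : ℕ) : Prog := .seq (.put 1 true) (.seq (iter (.put 1 true) j) (.seq (.put 1 false)
  (.seq (.put 3 true) (.seq (iter (.app 3 3 4) k) (.seq (.copy 0 2)
  (.seq (.each 2 (iter (.app 3 3 4) c) (iter (.app 3 3 4) c))
  (.seq (.app 3 1 4) (.seq (.put 1 false) (.seq (.app 0 1 4) (.seq (.ask 1 5) (.seq (.clear 0)
  (.take 5 .nop .nop (.put 0 true)))))))))))))

theorem go_espT (j k : ℕ) {c : ℕ} (hc : 1 ≤ c) (x : List Bool) : ∃ τ : Store,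
    Go G (espT j k c) (init x) ((2 * j + 2 * c + 2 * k + 80) * 2 ^ (k + c * x.length)) τ ∧
    (τ 0 ≠ [] ↔ G (code j (k + c * x.length) x) = true) := by
  rw [init_eq8]
  obtain ⟨I, hI⟩ : ∃ I, k + c * x.length = I := ⟨_, rfl⟩
  have g1 : Go G (.put 1 true) (st [x, [], [], [], [], [], [], []]) 1
      (st [x, [true], [], [], [], [], [], []]) := Go.put true (by simp)
  have g2 : Go G (iter (.put 1 true) j) (st [x, [true], [], [], [], [], [], []]) (j + 1)
      (st [x, [true] ++ ones j, [], [], [], [], [], []]) := go_put1 j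
  have g3 : Go G (.put 1 false) (st [x, [true] ++ ones j, [], [], [], [], [], []]) 1
      (st [x, [true] ++ ones j ++ [false], [], [], [], [], [], []]) := Go.put false (by simp)
  have g4 : Go G (.put 3 true) (st [x, [true] ++ ones j ++ [false], [], [], [], [], [], []]) 1
      (st [x, [true] ++ ones j ++ [false], [], ones (2 ^ 0), [], [], [], []]) :=
    Go.put true (by simp)
  obtain ⟨t5, ht5, g5⟩ := go_dblT (G := G) (X := x) (W := [true] ++ ones j ++ [false]) (P := [])
    (T := []) (B := []) (D := []) k 0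
  rw [Nat.zero_add] at ht5 g5
  have g6 : Go G (.copy 0 2)
      (st [x, [true] ++ ones j ++ [false], [], ones (2 ^ k), [], [], [], []]) (x.length + 1)
      (st [x, [true] ++ ones j ++ [false], x, ones (2 ^ k), [], [], [], []]) :=
    Go.copy (by simp)
  obtain ⟨t7, ht7, g7⟩ := go_dblsT (G := G) (X := x) (W := [true] ++ ones j ++ [false]) (T := [])
    (B := []) (D := []) c x k
  rw [hI] at ht7 g7
  have g8 : Go G (.app 3 1 4)
      (st [x, [true] ++ ones j ++ [false], [], ones (2 ^ I), [], [], [], []])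
      (4 * (ones (2 ^ I)).length + 2)
      (st [x, [true] ++ ones j ++ [false] ++ ones (2 ^ I), [], ones (2 ^ I), [], [], [], []]) :=
    Go.app (by simp) (by simp) (by simp)
  rw [List.length_replicate] at g8
  have g9 : Go G (.put 1 false)
      (st [x, [true] ++ ones j ++ [false] ++ ones (2 ^ I), [], ones (2 ^ I), [], [], [], []]) 1
      (st [x, [true] ++ ones j ++ [false] ++ ones (2 ^ I) ++ [false], [], ones (2 ^ I), [], [],
        [], []]) := Go.put false (by simp)
  have g10 : Go G (.app 0 1 4)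
      (st [x, [true] ++ ones j ++ [false] ++ ones (2 ^ I) ++ [false], [], ones (2 ^ I), [], [],
        [], []]) (4 * x.length + 2)
      (st [x, [true] ++ ones j ++ [false] ++ ones (2 ^ I) ++ [false] ++ x, [], ones (2 ^ I), [],
        [], [], []]) := Go.app (by simp) (by simp) (by simp)
  obtain ⟨q, hq⟩ : ∃ q, code j I x = q := ⟨_, rfl⟩
  have e1 : [true] ++ ones j ++ [false] ++ ones (2 ^ I) ++ [false] ++ x = q := by
    rw [← hq, code]; simp
  have hql : q.length = j + 2 ^ I + x.length + 3 := by rw [← hq, length_code]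
  rw [e1] at g10
  have g11 : Go G (.ask 1 5) (st [x, q, [], ones (2 ^ I), [], [], [], []]) (q.length + 1)
      (st [x, q, [], ones (2 ^ I), [], [G q], [], []]) := Go.ask (by simp)
  have g12 : Go G (.clear 0) (st [x, q, [], ones (2 ^ I), [], [G q], [], []]) (3 * x.length + 1)
      (st [[], q, [], ones (2 ^ I), [], [G q], [], []]) := Go.clear (by simp)
  have g13 : ∃ τ, Go G (.take 5 .nop .nop (.put 0 true))
      (st [[], q, [], ones (2 ^ I), [], [G q], [], []]) 2 τ ∧ (τ 0 ≠ [] ↔ G q = true) := by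
    cases hG : G q
    · exact ⟨_, Go.take_false (by simp) rfl Go.nop, by simp [st]⟩
    · exact ⟨_, Go.take_true (by simp) rfl (Go.put true (by simp)), by simp [st]⟩
  obtain ⟨τ, g13, h13⟩ := g13
  refine ⟨τ, (g1.seq (g2.seq (g3.seq (g4.seq (g5.seq (g6.seq (g7.seq (g8.seq (g9.seq
    (g10.seq (g11.seq (g12.seq g13)))))))))))).mono ?_, by rw [hI, hq]; exact h13⟩
  -- the time
  clear g1 g2 g3 g4 g5 g6 g7 g8 g9 g10 g11 g12 g13 h13
  rw [hql, hI]
  have h1 : k < 2 ^ k := Nat.lt_two_pow_self
  have h2 : 2 ^ k ≤ 2 ^ I := Nat.pow_le_pow_right (by norm_num) (by omega)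
  have h3 : x.length ≤ c * x.length := Nat.le_mul_of_pos_left _ hc
  have h4 : I < 2 ^ I := Nat.lt_two_pow_self
  obtain ⟨A, hA⟩ : ∃ A, 2 ^ I = A := ⟨_, rfl⟩
  rw [hA] at h2 h4 ht7 ⊢
  have h5 : x.length * (2 * c + 3) ≤ A * (2 * c + 3) := Nat.mul_le_mul_right _ (by omega)
  have h6 : (2 * j + 2 * k + 1) * 1 ≤ (2 * j + 2 * k + 1) * A := Nat.mul_le_mul_left _ (by omega)
  have h7 : (2 * j + 2 * c + 2 * k + 80) * A = (2 * j + 2 * k + 1) * A + A * (2 * c + 3) +
      76 * A := by ring
  rw [h7]
  omega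

end

end Pool.Agent.L0h58.EE
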